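import Pool.Agent.KS6_8.PL.Lo
import Pool.Graph.R_pool_sql_team_seeded_843ab51a.V1110.Ple

/-!
# The exact value of `m_n(q)` for the primes which are neither `2` nor Fermat primes
-/

set_option autoImplicit false

namespace Pool.Agent.KS6_8.PL

open Pool.Agent.Helper407.PL Pool.Agent.R683.Crit Pool.Agent.R683.Rec Pool.Agent.R683.Low
  Pool.Agent.R683.Upper Pool.Agent.Results.MP_d3ab46_al.Limit

/-- from the series of one formalism to the other -/
theorem psep_of_rlp {p : ℕ} {G : Type} [Group G] {α m : ℕ} (hpm : Nat.Coprime p m)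
    (hG : ∀ x : G, x ^ (p ^ α * m) = 1) {n : ℕ} (h : RLp p n (⊥ : Subgroup G) ⊤) :
    Pool.Agent.V1110.Pl.PSep (p ^ α) m G := by
  obtain ⟨S, h0, h1, h2, h3, h4, h5⟩ := h
  have key : ∀ (A : Subgroup G) (x : G) (u : ℕ), x ^ u ∈ A → x ^ Nat.gcd u (p ^ α * m) ∈ A := by
    intro A x u hx
    have h6 : x ^ (p ^ α * m) ∈ A := by rw [hG]; exact A.one_mem
    have h7 : x ^ ((Nat.gcd u (p ^ α * m) : ℕ) : ℤ) ∈ A := by
      rw [Nat.gcd_eq_gcd_ab, zpow_add, zpow_mul, zpow_mul]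
      refine A.mul_mem (A.zpow_mem ?_ _) (A.zpow_mem ?_ _)
      · rw [zpow_natCast]; exact hx
      · rw [zpow_natCast]; exact h6
    rwa [zpow_natCast] at h7
  refine ⟨2 * n + 1, S, h0, h1, fun i => inv_normal (h2 i), ?_⟩
  intro i hi
  rcases Nat.even_or_odd' i with ⟨j, rfl | rfl⟩
  · right
    intro x hx
    obtain ⟨u, hu1, hu2⟩ := h4 j (by omega) x hx
    have h6 := key _ x u hu2
    have h7 : Nat.gcd u (p ^ α * m) ∣ m := by
      have h8 : Nat.Coprime (Nat.gcd u (p ^ α * m)) (p ^ α) :=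
        Nat.Coprime.pow_right _ (hu1.coprime_dvd_left (Nat.gcd_dvd_left _ _))
      exact h8.dvd_of_dvd_mul_left (Nat.gcd_dvd_right _ _)
    obtain ⟨w, hw⟩ := h7
    rw [hw, pow_mul]
    exact (S (2 * j)).pow_mem h6 w
  · left
    intro x hx
    obtain ⟨u, hu⟩ := h5 j (by omega) x hx
    have h6 := key _ x (p ^ u) hu
    have h7 : Nat.gcd (p ^ u) (p ^ α * m) ∣ p ^ α := by
      have h8 : Nat.Coprime (Nat.gcd (p ^ u) (p ^ α * m)) m :=
        (Nat.Coprime.pow_left u hpm).coprime_dvd_left (Nat.gcd_dvd_left _ _)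
      exact h8.dvd_of_dvd_mul_right (Nat.gcd_dvd_right _ _)
    obtain ⟨w, hw⟩ := h7
    rw [hw, pow_mul]
    exact (S (2 * j + 1)).pow_mem h6 w

/-- the two definitions of the `p`-length agree -/
theorem pLength_eq (p : ℕ) (G : Type) [Group G] :
    pLength p G = Pool.Agent.V1110.Pl.pLength p G := by
  unfold pLength Pool.Agent.V1110.Pl.pLength
  congr 1
  ext l
  constructor
  · rintro ⟨k, S, h1, h2⟩
    exact ⟨k, S, ⟨h1.bot, h1.top, h1.normal, fun i hi => ⟨h1.le i hi, h1.factor i hi⟩⟩, h2.symm⟩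
  · rintro ⟨k, S, ⟨h1, h2, h3, h4⟩, h5⟩
    exact ⟨k, S, ⟨h1, h2, h3, fun i hi => (h4 i hi).1, fun i hi => (h4 i hi).2⟩, h5.symm⟩

/-- the upper bound of Hall and Higman -/
theorem mMax_le_clog {p : ℕ} [hp : Fact p.Prime] (hF : ∀ k : ℕ, p ≠ 2 ^ k + 1) (F : Type)
    [Field F] [Finite F] [CharP F p] {n : ℕ} (hn : 1 ≤ n) : mMax p n F ≤ Nat.clog p n := by
  classical
  have : Fintype F := Fintype.ofFinite F
  have hfinGL : Finite (GL (Fin n) F) := by infer_instance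
  obtain ⟨H, hH, hl⟩ := (isGreatest_mMax (p := p) (F := F) n).1
  rw [← hl]
  obtain ⟨s, m, hpm, hs⟩ :=
    Nat.exists_eq_pow_mul_and_not_dvd (n := Nat.card H) Nat.card_pos.ne' p hp.out.ne_one
  have hm : m ≠ 0 := fun h => hpm (h ▸ dvd_zero p)
  have hexp : ∀ x : H, x ^ (p ^ Nat.clog p n * m) = 1 := by
    intro x
    have h1 : x ^ Nat.card H = 1 := pow_card_eq_one'
    rw [hs, mul_comm, pow_mul] at h1
    have h2 : ((x : GL (Fin n) F) ^ m) ^ p ^ s = 1 := by
      have := congrArg Subtype.val h1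
      simpa using this
    have h3 := Pool.Agent.V1110.Pl.gl_pow hp.out hn _ h2
    apply Subtype.ext
    rw [mul_comm, pow_mul]
    simpa using h3
  obtain ⟨N, hN⟩ := rlp_of_pSolvable hH
  have hcop : Nat.Coprime p m := (Nat.Prime.coprime_iff_not_dvd hp.out).2 hpm
  rw [pLength_eq]
  exact (Pool.Agent.V1110.Pl.thmA hp.out hpm hm
    (fun q hq _ μ hμ r _ => Pool.Agent.V1110.Pl.not_exceptional hp.out hF hq hμ) _ H hexp
    (psep_of_rlp hcop hexp hN)).le

/-- **the exact value** -/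
theorem mMax_eq_clog {p : ℕ} [hp : Fact p.Prime] (hF : ∀ k : ℕ, p ≠ 2 ^ k + 1) (F : Type)
    [Field F] [Finite F] [CharP F p] {n : ℕ} (hn : 1 ≤ n) : mMax p n F = Nat.clog p n := by
  refine le_antisymm (mMax_le_clog hF F hn) ?_
  have hp2 : p ≠ 2 := fun h => hF 0 (by rw [h]; norm_num)
  have hcc : cc p = p := by unfold cc; rw [if_neg hp2]
  have h3 : 3 ≤ Nat.card F := by
    obtain ⟨a, ha0, ha⟩ := card_field (p := p) (F := F)
    have h4 : 3 ≤ p := by have := hp.out.two_le; omega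
    rw [ha]
    exact h4.trans (Nat.le_self_pow ha0.ne' p)
  have := clog_le_mMax p F h3 n hn
  rwa [hcc] at this

end Pool.Agent.KS6_8.PL
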