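import Pool.Graph.R_seed8.R683.LinI
import Pool.Graph.R_seed8.R683.Upper

/-!
# Lengths of solvable linear groups, with a bounded error

This is the argument of the library file `R683/LinI.lean` with a better bookkeeping: the constant
for the blocks on which the maximal abelian normal subgroup generates a field is compared with the
logarithm of the size of the block, so the total error is bounded.
-/

set_option autoImplicit false

namespace Pool.Agent.KS6_8.PL

open Pool.Agent.Helper407.PL Pool.Agent.R683.Q Pool.Agent.R683.Crit Pool.Agent.R683.Rec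
  Pool.Agent.R683.Ord Pool.Agent.R683.LenP Pool.Agent.R683.LinI Pool.Agent.Y552.CT Subgroup

/-- the bookkeeping condition on the constant -/
def Bk (c C : ℕ) : Prop :=
  ∀ u : ℕ, 1 ≤ u → ∃ A : ℕ, 8 * Real.logb 2 u < (289 / 144 : ℝ) ^ A ∧ A + 3 ≤ C + Nat.log c u

variable {L : (G : Type) → [Group G] → ℕ → Subgroup G → Subgroup G → Prop} (hL : Len L)

include hL

/-- lengths of irreducible solvable linear groups -/
theorem irr_len' {c : ℕ} (hc : 2 ≤ c)
    (hprim : ∀ (Q : Type) [Group Q] [Finite Q] [Group.IsSolvable Q]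
      (M : Subgroup Q), IsCoatom M → M.normalCore = ⊥ → L Q (Nat.log c M.index) ⊥ ⊤)
    (hab : ∀ (B : Type) [Group B] [Finite B], (∀ a b : B, a * b = b * a) → L B 2 ⊥ ⊤)
    (hsm : ∀ (G : Type) [Group G] [Finite G] [Group.IsSolvable G] (n : ℕ),
      Real.logb 2 (Nat.card G) < (289 / 144 : ℝ) ^ n → L G (n + 1) ⊥ ⊤)
    (C : ℕ) (hC : Bk c C) (s : ℕ) :
    ∀ (Γ : Type) [Group Γ] [Finite Γ] [Group.IsSolvable Γ] (W : Type) [AddCommGroup W]
    [Finite W] [Nontrivial W] (ρ : Γ →* AddMonoid.End W), Function.Injective ρ → Irr ρ →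
    Nat.card W = s →
    L Γ (C + Nat.log c (Nat.log 2 s)) ⊥ ⊤ := by
  classical
  induction s using Nat.strong_induction_on with
  | _ s ih =>
  intro Γ _ _ _ W _ _ _ ρ hinj hirr hWs
  have hW2 : 2 ≤ Nat.card W := Finite.one_lt_card
  -- a maximal abelian normal subgroup
  obtain ⟨B, hB⟩ : ∃ B : Subgroup Γ, Maximal (fun B : Subgroup Γ => B.Normal ∧ Comm B) B := by
    have hfin : {B : Subgroup Γ | B.Normal ∧ Comm B}.Finite := Set.toFinite _
    have hne : {B : Subgroup Γ | B.Normal ∧ Comm B}.Nonempty :=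
      ⟨⊥, inferInstance, by
        intro a ha b hb
        rw [mem_bot] at ha hb
        rw [ha, hb]⟩
    exact hfin.exists_maximal hne
  have hBn := hB.1.1
  have hBc := hB.1.2
  by_cases hdom : ∀ x ∈ Rg ρ B, ∀ y ∈ Rg ρ B, x * y = 0 → x = 0 ∨ y = 0
  · have h1 := field_small ρ hinj B hBn hBc
      (fun B' h1 h2 h3 => le_antisymm (hB.2 ⟨h1, h2⟩ h3) h3) hdom
    have h2 : Nat.card (Γ ⧸ B) ≤ Nat.log 2 (Nat.card W) ^ 8 := by
      rw [Subgroup.card_eq_card_quotient_mul_card_subgroup B, mul_comm] at h1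
      exact Nat.le_of_mul_le_mul_left h1 Nat.card_pos
    rw [hWs] at h2
    have hu1 : 1 ≤ Nat.log 2 s := by
      rw [← hWs]; exact Nat.log_pos (by norm_num) hW2
    obtain ⟨A, hA, hAC⟩ := hC (Nat.log 2 s) hu1
    have h4 : Real.logb 2 (Nat.card (Γ ⧸ B)) < (289 / 144 : ℝ) ^ A := by
      refine lt_of_le_of_lt ?_ hA
      have h5 : ((Nat.card (Γ ⧸ B) : ℝ)) ≤ (Nat.log 2 s : ℝ) ^ 8 := by exact_mod_cast h2
      have h0 : (0 : ℝ) < Nat.card (Γ ⧸ B) := by exact_mod_cast Nat.card_pos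
      have h6 := Real.logb_le_logb_of_le (b := 2) (by norm_num) h0 h5
      rw [Real.logb_pow] at h6
      push_cast at h6
      exact h6
    have h5 := hsm (Γ ⧸ B) A h4
    have h6 := hL.comap Γ (Γ ⧸ B) (QuotientGroup.mk' B) _ ⊥ ⊤ h5
    rw [Subgroup.comap_top, MonoidHom.comap_bot, QuotientGroup.ker_mk'] at h6
    have h7 := hL.to_sub B 2 (hab B (fun a b => Subtype.ext (hBc a a.2 b b.2)))
    have h8 := hL.trans Γ _ _ _ _ _ h7 h6 (Inv.bot _)
    exact hL.mono Γ _ _ _ _ h8 (by omega)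
  obtain ⟨ι, hιf, hact, U, hι2, htr, hU, hsup, hprod, hUirr⟩ :=
    Pool.Agent.Y931.CT.clif Γ W ρ hirr B hBn hBc hdom
  have hft := Fintype.ofFinite ι
  have hne : Nonempty ι := (Nat.card_pos_iff.1 (by omega : 0 < Nat.card ι)).1
  rw [finprod_eq_prod_of_fintype] at hprod
  -- all blocks have the same order
  have hρinj : ∀ g : Γ, Function.Injective (ρ g) := by
    intro g a b hab
    have h1 : ρ g⁻¹ (ρ g a) = ρ g⁻¹ (ρ g b) := by rw [hab]
    have h2 : ∀ x : W, ρ g⁻¹ (ρ g x) = x := by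
      intro x
      have : (ρ g⁻¹ * ρ g) x = x := by rw [← map_mul, inv_mul_cancel, map_one]; rfl
      exact this
    rwa [h2, h2] at h1
  have hle : ∀ (g : Γ) (i : ι), Nat.card (U i) ≤ Nat.card (U (g • i)) := by
    intro g i
    refine Nat.card_le_card_of_injective (fun w : U i => (⟨ρ g w, hU g i w w.2⟩ : U (g • i))) ?_
    intro a b hab
    exact Subtype.ext (hρinj g (congrArg Subtype.val hab))
  have heq : ∀ i j : ι, Nat.card (U i) = Nat.card (U j) := by
    intro i j
    obtain ⟨g, rfl⟩ := MulAction.exists_smul_eq Γ i j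
    refine le_antisymm (hle g i) ?_
    have h1 := hle g⁻¹ (g • i)
    rwa [inv_smul_smul] at h1
  obtain ⟨i₀⟩ := hne
  have hprod' : Nat.card (U i₀) ^ Nat.card ι = Nat.card W := by
    have e : Nat.card ι = Fintype.card ι := Nat.card_eq_fintype_card
    rw [← hprod, Finset.prod_congr rfl (fun i _ => heq i i₀), Finset.prod_const, Finset.card_univ,
      e]
  have hU2 : ∀ i, 2 ≤ Nat.card (U i) := by
    intro i
    rw [heq i i₀]
    by_contra hcon
    have h1 : Nat.card (U i₀) = 1 := by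
      have : 0 < Nat.card (U i₀) := Nat.card_pos
      omega
    rw [h1, one_pow] at hprod'
    omega
  have hUlt : ∀ i, Nat.card (U i) < s := by
    intro i
    rw [heq i i₀, ← hWs, ← hprod']
    have h1 := hU2 i₀
    calc Nat.card (U i₀) = Nat.card (U i₀) ^ 1 := (pow_one _).symm
      _ < Nat.card (U i₀) ^ Nat.card ι := Nat.pow_lt_pow_right (by omega) (by omega)
  -- the action on a block
  have hblock : ∀ i, L (MulAction.stabilizer Γ i ⧸ (rb ρ hU i).ker)
      (C + Nat.log c (Nat.log 2 (Nat.card (U i₀)))) ⊥ ⊤ := by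
    intro i
    have hnt : Nontrivial (U i) := Finite.one_lt_card_iff_nontrivial.1 (by
      have := hU2 i
      omega)
    have h1 := ih _ (hUlt i) (MulAction.stabilizer Γ i ⧸ (rb ρ hU i).ker) (U i)
      (rk ρ hU i) (rk_inj ρ hU i) (irr_rk ρ hU i (hUirr i)) rfl
    rwa [heq i i₀] at h1
  -- the kernel of the permutation action
  set L₀ := (MulAction.toPermHom Γ ι).ker with hL₀
  have hLmem : ∀ l : L₀, ∀ i : ι, (l : Γ) ∈ MulAction.stabilizer Γ i := by
    intro l i
    have h1 := MonoidHom.mem_ker.1 l.2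
    have h2 := congrArg (fun e : Equiv.Perm ι => e i) h1
    exact h2
  let fi : ∀ i : ι, L₀ →* (MulAction.stabilizer Γ i ⧸ (rb ρ hU i).ker) := fun i =>
    (QuotientGroup.mk' (rb ρ hU i).ker).comp
      { toFun := fun l => ⟨(l : Γ), hLmem l i⟩
        map_one' := rfl
        map_mul' := fun _ _ => rfl }
  have hLL : L L₀ (C + Nat.log c (Nat.log 2 (Nat.card (U i₀)))) ⊥ ⊤ := by
    have h1 := hL.iInf (G := L₀) (ι := ι)
      (C + Nat.log c (Nat.log 2 (Nat.card (U i₀)))) (fun i => (fi i).ker) (by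
        intro i
        have h2 := hL.comap L₀ _ (fi i) _ ⊥ ⊤ (hblock i)
        rwa [Subgroup.comap_top, MonoidHom.comap_bot] at h2)
    have h2 : (⨅ i : ι, (fi i).ker) = ⊥ := by
      rw [eq_bot_iff]
      intro l hl
      rw [Subgroup.mem_iInf] at hl
      rw [Subgroup.mem_bot]
      apply Subtype.ext
      apply hinj
      have h2 : ∀ i, ∀ w ∈ U i, ρ (l : Γ) w = ρ (1 : Γ) w := fun i w hw =>
        eq_of_mk ρ hU i (l : Γ) 1 (hLmem l i) (one_smul _ _) (MonoidHom.mem_ker.1 (hl i)) w hw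
      have h6 : (⨆ i, U i) ≤ AddMonoidHom.eqLocus (ρ (l : Γ) : W →+ W) (ρ (1 : Γ) : W →+ W) :=
        iSup_le (fun i w hw => h2 i w hw)
      rw [hsup] at h6
      apply AddMonoidHom.ext
      intro w
      exact h6 (AddSubgroup.mem_top w)
    rwa [h2] at h1
  have hTop : L Γ (Nat.log c (Nat.card ι)) L₀ ⊤ := by
    let act : MulAction (Γ ⧸ L₀) ι :=
      MulAction.compHom ι (QuotientGroup.kerLift (MulAction.toPermHom Γ ι))
    have hfaith : FaithfulSMul (Γ ⧸ L₀) ι := by
      constructor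
      intro a b hab
      apply QuotientGroup.kerLift_injective (MulAction.toPermHom Γ ι)
      ext i
      exact hab i
    have : Nonempty ι := ⟨i₀⟩
    have h1 := perm_len hL hc hprim (Γ ⧸ L₀) ι
    have h2 := hL.comap Γ (Γ ⧸ L₀) (QuotientGroup.mk' L₀) _ ⊥ ⊤ h1
    rwa [Subgroup.comap_top, MonoidHom.comap_bot, QuotientGroup.ker_mk'] at h2
  have h1 := hL.to_sub L₀ _ hLL
  have h3 := hL.trans Γ _ _ _ _ _ h1 hTop (Inv.bot _)
  refine hL.mono Γ _ _ _ _ h3 ?_
  have hpos : 0 < Nat.log 2 (Nat.card (U i₀)) := Nat.log_pos (by norm_num) (hU2 i₀)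
  have h4 := log_add hc hpos (by omega : 0 < Nat.card ι)
  have h5 : Nat.log 2 (Nat.card (U i₀)) * Nat.card ι ≤ Nat.log 2 s := by
    apply Nat.le_log_of_pow_le (by norm_num)
    rw [← hWs, ← hprod', pow_mul]
    exact Nat.pow_le_pow_left (Nat.pow_log_le_self 2 (by have := hU2 i₀; omega)) _
  have h6 : Nat.log c (Nat.log 2 (Nat.card (U i₀)) * Nat.card ι) ≤ Nat.log c (Nat.log 2 s) :=
    Nat.log_mono_right h5
  omega

/-- the length above the subgroup which stabilizes a chief series -/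
theorem self_centralizing_len' {c : ℕ} (hc : 2 ≤ c)
    (hprim : ∀ (Q : Type) [Group Q] [Finite Q] [Group.IsSolvable Q]
      (M : Subgroup Q), IsCoatom M → M.normalCore = ⊥ → L Q (Nat.log c M.index) ⊥ ⊤)
    (hab : ∀ (B : Type) [Group B] [Finite B], (∀ a b : B, a * b = b * a) → L B 2 ⊥ ⊤)
    (hsm : ∀ (G : Type) [Group G] [Finite G] [Group.IsSolvable G] (n : ℕ),
      Real.logb 2 (Nat.card G) < (289 / 144 : ℝ) ^ n → L G (n + 1) ⊥ ⊤)
    (A : ℕ) (hA : Bk c A) {G : Type} [Group G] [Finite G] [Group.IsSolvable G]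
    (M : Subgroup G) (hM : M.Normal) (hC : ∀ x, (∀ y ∈ M, x * y = y * x) → x ∈ M) :
    ∃ D : Subgroup G, D.Normal ∧ L G (A + Nat.log c (Nat.log 2 (Nat.card M))) D ⊤ ∧
      ∀ d ∈ D, ∃ k, d ^ (Nat.card M ^ k) = 1 := by
  classical
  obtain ⟨f, hf⟩ : ∃ f, f = A + Nat.log c (Nat.log 2 (Nat.card M)) := ⟨_, rfl⟩
  rw [← hf]
  have hstart : (⊥ : Subgroup G) ∈ {N : Subgroup G | N.Normal ∧ N ≤ M ∧ ∃ D : Subgroup G,
      D.Normal ∧ L G f D ⊤ ∧
      ∀ d ∈ D, ∃ k, ∀ y ∈ N, d ^ (Nat.card M ^ k) * y = y * d ^ (Nat.card M ^ k)} := by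
    refine ⟨inferInstance, bot_le, ⊤, inferInstance, hL.refl _ _ _, ?_⟩
    intro d _
    refine ⟨0, ?_⟩
    intro y hy
    rw [mem_bot] at hy
    rw [hy]; simp
  obtain ⟨N, hN⟩ := (Set.toFinite {N : Subgroup G | N.Normal ∧ N ≤ M ∧ ∃ D : Subgroup G,
      D.Normal ∧ L G f D ⊤ ∧
      ∀ d ∈ D, ∃ k, ∀ y ∈ N, d ^ (Nat.card M ^ k) * y = y * d ^ (Nat.card M ^ k)}).exists_maximal
      ⟨⊥, hstart⟩
  obtain ⟨hNn, hNM, D, hDn, hDc, hDk⟩ := hN.prop
  have hNeq : N = M := by
    by_contra hne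
    obtain ⟨N', hN'n, hNN', hN'M, hmin, hcomm⟩ := exists_min N M hNn hM
      (lt_of_le_of_ne hNM hne)
    obtain ⟨W, _, _, _, ρ, ρ', hker, hinj, hirr, hcard⟩ := chief_rep N N' hNn hN'n hNN' hmin hcomm
    have hWM : Nat.card W ≤ Nat.card M := by
      have h1 : Nat.card W ≤ Nat.card N' := by
        rw [hcard]
        exact Nat.le_mul_of_pos_right _ Nat.card_pos
      exact h1.trans (Subgroup.card_le_of_le hN'M)
    have hCEL : L G f (CE N N' hN'n) ⊤ := by
      have h1 := irr_len' hL hc hprim hab hsm A hA (Nat.card W) (G ⧸ ρ.ker) W ρ'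
        hinj hirr rfl
      have h2 := hL.comap G (G ⧸ ρ.ker) (QuotientGroup.mk' ρ.ker) _ ⊥ ⊤ h1
      rw [Subgroup.comap_top, MonoidHom.comap_bot, QuotientGroup.ker_mk'] at h2
      have h3 : L G (A + Nat.log c (Nat.log 2 (Nat.card W))) (CE N N' hN'n) ⊤ := by
        rw [← hker]
        exact h2
      refine hL.mono _ _ _ _ _ h3 ?_
      have h4 : Nat.log c (Nat.log 2 (Nat.card W)) ≤ Nat.log c (Nat.log 2 (Nat.card M)) :=
        Nat.log_mono_right (Nat.log_mono_right hWM)
      omega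
    have hCEn := CE_normal N N' hNn hN'n
    have hmem : N' ∈ {N : Subgroup G | N.Normal ∧ N ≤ M ∧ ∃ D : Subgroup G,
      D.Normal ∧ L G f D ⊤ ∧
      ∀ d ∈ D, ∃ k, ∀ y ∈ N, d ^ (Nat.card M ^ k) * y = y * d ^ (Nat.card M ^ k)} := by
      refine ⟨hN'n, hN'M, D ⊓ CE N N' hN'n, inferInstance, hL.inf _ _ _ _ _ hDc hCEL, ?_⟩
      rintro d ⟨hd1, hd2⟩
      obtain ⟨k, hk⟩ := hDk d hd1
      refine ⟨k + 1, ?_⟩
      intro y hy
      have he : d ^ (Nat.card M ^ k) ∈ CE N N' hN'n := Subgroup.pow_mem _ hd2 _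
      rw [pow_succ, pow_mul]
      generalize hdd : d ^ (Nat.card M ^ k) = e at hk he
      have hz := he y hy
      have hzM : e * y * e⁻¹ * y⁻¹ ∈ M := hNM hz
      have hze := hk _ hz
      generalize hzz : e * y * e⁻¹ * y⁻¹ = z at hz hze hzM
      have hey : e * y = z * (y * e) := by rw [← hzz]; group
      have hpow : ∀ n : ℕ, e ^ n * y = z ^ n * (y * e ^ n) := by
        intro n
        induction n with
        | zero => simp
        | succ n ih =>
          have hc : Commute e z := hze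
          calc e ^ (n + 1) * y = e * (e ^ n * y) := by rw [pow_succ', mul_assoc]
            _ = e * (z ^ n * (y * e ^ n)) := by rw [ih]
            _ = (e * z ^ n) * y * e ^ n := by simp only [mul_assoc]
            _ = (z ^ n * e) * y * e ^ n := by rw [(hc.pow_right n).eq]
            _ = z ^ n * (e * y) * e ^ n := by simp only [mul_assoc]
            _ = z ^ n * (z * (y * e)) * e ^ n := by rw [hey]
            _ = (z ^ n * z) * (y * (e * e ^ n)) := by simp only [mul_assoc]
            _ = _ := by rw [← pow_succ, ← pow_succ']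
      have hzc : z ^ Nat.card M = 1 := by
        have h1 : orderOf z ∣ Nat.card M := Subgroup.orderOf_dvd_natCard M hzM
        exact orderOf_dvd_iff_pow_eq_one.1 h1
      rw [hpow, hzc, one_mul]
    exact hNN'.not_ge (hN.le_of_ge hmem hNN'.le)
  subst hNeq
  refine ⟨D, hDn, hDc, ?_⟩
  intro d hd
  obtain ⟨k, hk⟩ := hDk d hd
  refine ⟨k + 1, ?_⟩
  have h1 : d ^ (Nat.card N ^ k) ∈ N := hC _ hk
  rw [pow_succ, pow_mul]
  have h2 : orderOf (d ^ (Nat.card N ^ k)) ∣ Nat.card N := Subgroup.orderOf_dvd_natCard N h1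
  exact orderOf_dvd_iff_pow_eq_one.1 h2

/-- the length of a solvable linear group above a normal `p`-subgroup -/
theorem linear_len' {c : ℕ} (hc : 2 ≤ c)
    (hprim : ∀ (Q : Type) [Group Q] [Finite Q] [Group.IsSolvable Q]
      (M : Subgroup Q), IsCoatom M → M.normalCore = ⊥ → L Q (Nat.log c M.index) ⊥ ⊤)
    (hab : ∀ (B : Type) [Group B] [Finite B], (∀ a b : B, a * b = b * a) → L B 2 ⊥ ⊤)
    (hsm : ∀ (G : Type) [Group G] [Finite G] [Group.IsSolvable G] (n : ℕ),
      Real.logb 2 (Nat.card G) < (289 / 144 : ℝ) ^ n → L G (n + 1) ⊥ ⊤)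
    {p : ℕ} {H : Type} [Group H] [Finite H] [Group.IsSolvable H] (V : Type)
    [AddCommGroup V] [Finite V] (φ : H →* MulAut (Multiplicative V)) (hφ : Function.Injective φ)
    (hV : ∃ a, Nat.card V = p ^ a) (A : ℕ) (hA : Bk c A) :
    ∃ D : Subgroup H, D.Normal ∧ PF p ⊥ D ∧
      L H (A + Nat.log c (Nat.log 2 (Nat.card V))) D ⊤ := by
  classical
  let G := Multiplicative V ⋊[φ] H
  let r : G →* H := SemidirectProduct.rightHom
  have hfinG : Finite G := Finite.of_equiv _ SemidirectProduct.equivProd.symm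
  have hrs : Function.Surjective r := SemidirectProduct.rightHom_surjective
  have hcardM : Nat.card r.ker = Nat.card V := by
    have h1 : r.ker = (SemidirectProduct.inl : Multiplicative V →* G).range :=
      SemidirectProduct.range_inl_eq_ker_rightHom.symm
    rw [h1]
    exact Nat.card_congr
      (MonoidHom.ofInjective (SemidirectProduct.inl_injective (φ := φ))).symm.toEquiv
  have hsolM : Group.IsSolvable r.ker := by
    have h1 : r.ker = (SemidirectProduct.inl : Multiplicative V →* G).range :=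
      SemidirectProduct.range_inl_eq_ker_rightHom.symm
    rw [h1]
    exact Group.isSolvable_of_surjective
      (f := (SemidirectProduct.inl : Multiplicative V →* G).rangeRestrict)
      (MonoidHom.rangeRestrict_surjective _)
  have hsolG : Group.IsSolvable G := sol_ext r hsolM inferInstance
  have hC : ∀ x : G, (∀ y ∈ r.ker, x * y = y * x) → x ∈ r.ker := by
    intro x hx
    rw [MonoidHom.mem_ker]
    show x.right = 1
    apply hφ
    rw [map_one]
    apply MulEquiv.ext
    intro b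
    have h1 : (SemidirectProduct.inl b : G) ∈ r.ker := by
      rw [MonoidHom.mem_ker]
      exact SemidirectProduct.rightHom_inl b
    have h2 := congrArg SemidirectProduct.left (hx _ h1)
    rw [SemidirectProduct.mul_left, SemidirectProduct.mul_left, SemidirectProduct.left_inl,
      SemidirectProduct.right_inl, map_one, MulAut.one_apply, mul_comm b x.left] at h2
    exact mul_left_cancel h2
  obtain ⟨D, hDn, hDc, hDk⟩ := self_centralizing_len' hL hc hprim hab hsm A hA r.ker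
    inferInstance hC
  rw [hcardM] at hDc
  refine ⟨D.map r, hDn.map r hrs, ?_, ?_⟩
  · rintro _ ⟨d, hd, rfl⟩
    obtain ⟨k, hk⟩ := hDk d hd
    obtain ⟨a, ha⟩ := hV
    refine ⟨a * k, ?_⟩
    rw [Subgroup.mem_bot, ← map_pow, pow_mul, ← ha, ← hcardM, hk, map_one]
  · have h1 := hL.map G H r _ D ⊤ hDc
    rwa [Subgroup.map_top_of_surjective r hrs] at h1

end Pool.Agent.KS6_8.PL
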