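import Pool.Agent.KS6_8.PL.Up

/-!
# Affine monomial groups: the sharp lower bound for the `p`-length, `p` odd
-/

set_option autoImplicit false

namespace Pool.Agent.KS6_8.PL

open Pool.Agent.Helper407.PL Pool.Agent.R683.Crit Pool.Agent.R683.Rec Pool.Agent.R683.Low
  Pool.Agent.R683.Upper Pool.Agent.Results.MP_d3ab46_al.Limit

/-- a self-centralizing elementary abelian normal subgroup below a group without normal
`p`-subgroups raises the `p`-length -/
theorem step1 {p : ℕ} {G N : Type} [Group G] [Group N] (π : G →* N)
    (hπ : Function.Surjective π) (hV : ∀ v, π v = 1 → v ^ p = 1) (hne : ∃ v, π v = 1 ∧ v ≠ 1)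
    (hC : ∀ g, (∀ v, π v = 1 → g * v = v * g) → π g = 1)
    (hN : ∀ S : Subgroup N, S.Normal → PF p ⊥ S → S = ⊥) :
    (¬ RLp p 0 (⊥ : Subgroup G) ⊤) ∧
    ∀ n, ¬ RLp p n (⊥ : Subgroup N) ⊤ → ¬ RLp p (n + 1) (⊥ : Subgroup G) ⊤ := by
  have key : ∀ {m : ℕ} {z : G}, m.Coprime p → z ^ m = 1 → z ^ p = 1 → z = 1 := by
    intro m z hm h1 h2
    have h3 : orderOf z ∣ Nat.gcd m p :=
      Nat.dvd_gcd (orderOf_dvd_of_pow_eq_one h1) (orderOf_dvd_of_pow_eq_one h2)
    rw [hm] at h3
    exact orderOf_eq_one_iff.1 (Nat.dvd_one.1 h3)
  have hfirst : ∀ S : Subgroup G, Inv ⊤ S → PF' p ⊥ S → S = ⊥ := by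
    intro S hS hS'
    rw [eq_bot_iff]
    intro g hg
    have h1 : ∀ v, π v = 1 → g * v = v * g := by
      intro v hv
      have hz : g * v * g⁻¹ * v⁻¹ ∈ S := by
        have h2 := hS v (Subgroup.mem_top v) g⁻¹ (S.inv_mem hg)
        have h3 := S.mul_mem hg h2
        have h4 : g * (v * g⁻¹ * v⁻¹) = g * v * g⁻¹ * v⁻¹ := by group
        rwa [h4] at h3
      have hzp : (g * v * g⁻¹ * v⁻¹) ^ p = 1 := hV _ (by simp [hv])
      obtain ⟨m, hm, hm'⟩ := hS' _ hz
      have h5 := key hm (Subgroup.mem_bot.1 hm') hzp
      calc g * v = (g * v * g⁻¹ * v⁻¹) * (v * g) := by group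
        _ = v * g := by rw [h5, one_mul]
    have h2 := hV g (hC g h1)
    obtain ⟨m, hm, hm'⟩ := hS' g hg
    exact Subgroup.mem_bot.2 (key hm (Subgroup.mem_bot.1 hm') h2)
  obtain ⟨v, hv1, hv2⟩ := hne
  constructor
  · rintro ⟨S, h0, h1, h2, h3, h4, h5⟩
    have h6 := h4 0 le_rfl
    rw [Nat.mul_zero, Nat.zero_add, h0] at h6
    have h7 := hfirst (S 1) (h1 ▸ h2 1) h6
    rw [Nat.mul_zero, Nat.zero_add] at h1
    rw [h7] at h1
    exact hv2 (Subgroup.mem_bot.1 (h1 ▸ Subgroup.mem_top v))
  · rintro n hn ⟨S, h0, h1, h2, h3, h4, h5⟩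
    apply hn
    have h6 := h4 0 (Nat.zero_le _)
    rw [Nat.mul_zero, Nat.zero_add, h0] at h6
    have h7 := hfirst (S 1) (h2 1) h6
    have h8 := h5 0 (Nat.succ_pos n)
    rw [Nat.mul_zero, Nat.zero_add, Nat.zero_add, h7] at h8
    have h9 : (S 2).map π = ⊥ := by
      refine hN _ ?_ ?_
      · have : (S 2).Normal := inv_normal (h2 2)
        exact this.map π hπ
      · rintro _ ⟨g, hg, rfl⟩
        obtain ⟨k, hk⟩ := h8 g hg
        refine ⟨k, ?_⟩
        rw [Subgroup.mem_bot, ← map_pow, Subgroup.mem_bot.1 hk, map_one]
    have h10 : RLp p n (S 2) ⊤ := by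
      refine ⟨fun i => S (i + 2), rfl, ?_, fun i => h2 _, fun i => h3 _, ?_, ?_⟩
      · show S (2 * n + 1 + 2) = ⊤
        have : 2 * n + 1 + 2 = 2 * (n + 1) + 1 := by ring
        rw [this]; exact h1
      · intro i hi
        have := h4 (i + 1) (by omega)
        have e1 : 2 * (i + 1) = 2 * i + 2 := by ring
        rw [e1] at this
        exact this
      · intro i hi
        have := h5 (i + 1) (by omega)
        have e1 : 2 * (i + 1) = 2 * i + 2 := by ring
        rw [e1] at this
        exact this
    have h11 := h10.map π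
    rwa [h9, Subgroup.map_top_of_surjective π hπ] at h11

section aff

variable (F : Type) [Field F] (T X : Type) [Group T] [MulAction T X]

/-- the monomial group -/
abbrev Mon : Type := (X → Fˣ) ⋊[(mulAutArrow : T →* MulAut (X → Fˣ))] T

variable {F T X}

lemma mon_mul_left (s t : Mon F T X) (y : X) :
    (s * t).left y = s.left y * t.left (s.right⁻¹ • y) := rfl

lemma mon_mul_right (s t : Mon F T X) : (s * t).right = s.right * t.right := rfl

variable (F T X)

/-- the monomial representation -/
def monLin : Mon F T X →* Module.End F (X → F) where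
  toFun g :=
    { toFun := fun v x => (g.left x : F) * v (g.right⁻¹ • x)
      map_add' := fun v w => by
        ext x
        simp only [Pi.add_apply]
        ring
      map_smul' := fun a v => by
        ext x
        simp only [Pi.smul_apply, smul_eq_mul, RingHom.id_apply]
        ring }
  map_one' := by
    ext v x
    simp
  map_mul' g h := by
    ext v x
    simp only [LinearMap.coe_mk, AddHom.coe_mk, Module.End.mul_apply,
      mon_mul_left, mon_mul_right, Units.val_mul, mul_inv_rev, mul_smul]
    ring

lemma monLin_apply (g : Mon F T X) (v : X → F) (x : X) :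
    monLin F T X g v x = (g.left x : F) * v (g.right⁻¹ • x) := rfl

/-- the action on the space -/
def monAct : Mon F T X →* MulAut (Multiplicative (X → F)) where
  toFun g := AddEquiv.toMultiplicative
    { toFun := monLin F T X g
      invFun := monLin F T X g⁻¹
      left_inv := fun v => by
        have : (monLin F T X g⁻¹ * monLin F T X g) v = v := by
          rw [← map_mul, inv_mul_cancel, map_one]; rfl
        exact this
      right_inv := fun v => by
        have : (monLin F T X g * monLin F T X g⁻¹) v = v := by
          rw [← map_mul, mul_inv_cancel, map_one]; rfl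
        exact this
      map_add' := fun v w => map_add _ v w }
  map_one' := by
    apply MulEquiv.ext
    intro v
    apply Multiplicative.toAdd.injective
    show monLin F T X 1 v.toAdd = v.toAdd
    rw [map_one]; rfl
  map_mul' g h := by
    apply MulEquiv.ext
    intro v
    apply Multiplicative.toAdd.injective
    show monLin F T X (g * h) v.toAdd = monLin F T X g (monLin F T X h v.toAdd)
    rw [map_mul]; rfl

lemma monAct_apply (g : Mon F T X) (v : Multiplicative (X → F)) :
    (monAct F T X g v).toAdd = monLin F T X g v.toAdd := rfl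

variable [FaithfulSMul T X] [DecidableEq X]

/-- the monomial representation is faithful -/
lemma monLin_faithful (g : Mon F T X) (h : ∀ v, monLin F T X g v = v) : g = 1 := by
  have h1 : ∀ x : X, g.right • x = x ∧ g.left x = 1 := by
    intro x
    have h2 := congrFun (h (Pi.single x 1)) (g.right • x)
    rw [monLin_apply, inv_smul_smul, Pi.single_eq_same, mul_one] at h2
    have h3 : g.right • x = x := by
      by_contra hne
      rw [Pi.single_eq_of_ne hne] at h2
      exact (g.left (g.right • x)).ne_zero h2
    refine ⟨h3, ?_⟩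
    rw [h3, Pi.single_eq_same] at h2
    exact Units.ext h2
  apply SemidirectProduct.ext
  · funext x
    exact (h1 x).2
  · apply FaithfulSMul.eq_of_smul_eq_smul (α := X)
    intro x
    rw [(h1 x).1]
    exact (one_smul _ _).symm

/-- the affine monomial group -/
abbrev Aff : Type := Multiplicative (X → F) ⋊[monAct F T X] Mon F T X

/-- the affine monomial group as a linear group -/
def affLin (R : Type) : Aff F T X →* Module.End F (((X → F) × F) × (R → F)) where
  toFun g :=
    { toFun := fun z => ((monLin F T X g.right z.1.1 + z.1.2 • g.left.toAdd, z.1.2), z.2)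
      map_add' := fun z w => by
        ext x
        · simp only [Prod.fst_add, Prod.snd_add, map_add, Pi.add_apply, Pi.smul_apply,
            smul_eq_mul]
          ring
        · rfl
        · rfl
      map_smul' := fun a z => by
        ext x
        · simp only [Prod.smul_fst, Prod.smul_snd, map_smul, Pi.add_apply, Pi.smul_apply,
            smul_eq_mul, RingHom.id_apply]
          ring
        · rfl
        · rfl }
  map_one' := by
    apply LinearMap.ext
    rintro ⟨⟨v, s⟩, y⟩
    show ((monLin F T X 1 v + s • (0 : X → F), s), y) = ((v, s), y)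
    rw [map_one, smul_zero, add_zero]; rfl
  map_mul' g h := by
    apply LinearMap.ext
    rintro ⟨⟨v, s⟩, y⟩
    show ((monLin F T X (g.right * h.right) v + s • (g.left.toAdd +
      monLin F T X g.right h.left.toAdd), s), y) =
      ((monLin F T X g.right (monLin F T X h.right v + s • h.left.toAdd) + s • g.left.toAdd, s), y)
    rw [map_mul, map_add, map_smul, smul_add]
    have : (monLin F T X g.right * monLin F T X h.right) v =
      monLin F T X g.right (monLin F T X h.right v) := rfl
    rw [this, add_assoc, add_comm (s • g.left.toAdd)]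

lemma affLin_injective (R : Type) : Function.Injective (affLin F T X R) := by
  rw [injective_iff_map_eq_one]
  intro g hg
  have h1 : ∀ (v : X → F) (s : F), monLin F T X g.right v + s • g.left.toAdd = v := by
    intro v s
    have h2 := LinearMap.congr_fun hg ((v, s), 0)
    exact congrArg (fun z => z.1.1) h2
  have h2 : g.left.toAdd = 0 := by
    have := h1 0 1
    rwa [map_zero, zero_add, one_smul] at this
  have h3 : g.right = 1 := by
    apply monLin_faithful
    intro v
    have := h1 v 0
    rwa [zero_smul, add_zero] at this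
  apply SemidirectProduct.ext
  · exact h2
  · exact h3

end aff

section len

variable {p : ℕ} [hp : Fact p.Prime] {F : Type} [Field F] [Finite F] [CharP F p] {T X : Type}
  [Group T] [MulAction T X] [FaithfulSMul T X]

/-- the monomial group has no normal `p`-subgroups -/
lemma mon_opp (hF : ∃ u : Fˣ, u ≠ 1) (S : Subgroup (Mon F T X)) (hS : S.Normal)
    (hSp : PF p ⊥ S) : S = ⊥ := by
  classical
  obtain ⟨u, hu⟩ := hF
  have hFin : Fintype F := Fintype.ofFinite F
  obtain ⟨a, ha0, ha⟩ := card_field (p := p) (F := F)
  have hcop : ∀ k, (p ^ k).Coprime (Nat.card F - 1) := by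
    intro k
    apply Nat.Coprime.pow_left
    rw [Nat.Prime.coprime_iff_not_dvd hp.out]
    intro h
    have h1 : p ∣ Nat.card F := by rw [ha]; exact dvd_pow_self p ha0.ne'
    have h2 : 1 ≤ Nat.card F := Nat.card_pos
    have h3 : p ∣ 1 := by
      have := Nat.dvd_sub h1 h
      rwa [Nat.sub_sub_self h2] at this
    exact hp.out.one_lt.ne' (Nat.dvd_one.1 h3)
  have hbase : ∀ z : Mon F T X, z.right = 1 → z ^ (Nat.card F - 1) = 1 := by
    intro z hz
    have h1 : z = SemidirectProduct.inl z.left := by
      apply SemidirectProduct.ext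
      · rfl
      · exact hz
    rw [h1, ← map_pow]
    have h2 : z.left ^ (Nat.card F - 1) = 1 := by
      funext x
      rw [Pi.pow_apply, Pi.one_apply]
      have h3 : Nat.card Fˣ = Nat.card F - 1 := Nat.card_units F
      rw [← h3]
      exact pow_card_eq_one'
    rw [h2, map_one]
  have key : ∀ z ∈ S, z.right = 1 → z = 1 := by
    intro z hz hzr
    obtain ⟨k, hk⟩ := hSp z hz
    have h3 : orderOf z ∣ Nat.gcd (p ^ k) (Nat.card F - 1) :=
      Nat.dvd_gcd (orderOf_dvd_of_pow_eq_one (Subgroup.mem_bot.1 hk))
        (orderOf_dvd_of_pow_eq_one (hbase z hzr))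
    rw [hcop k] at h3
    exact orderOf_eq_one_iff.1 (Nat.dvd_one.1 h3)
  rw [eq_bot_iff]
  intro g hg
  refine Subgroup.mem_bot.2 (key g hg ?_)
  have hcomm : ∀ b : X → Fˣ, g * SemidirectProduct.inl b = SemidirectProduct.inl b * g := by
    intro b
    have hz : g * (SemidirectProduct.inl b) * g⁻¹ * (SemidirectProduct.inl b)⁻¹ ∈ S := by
      have h2 := hS.conj_mem _ (S.inv_mem hg) (SemidirectProduct.inl b)
      have h3 := S.mul_mem hg h2
      rwa [← mul_assoc, ← mul_assoc] at h3
    have h4 := key _ hz (by
      rw [SemidirectProduct.mul_right, SemidirectProduct.mul_right, SemidirectProduct.mul_right,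
        SemidirectProduct.inv_right, SemidirectProduct.inv_right, SemidirectProduct.right_inl]
      simp)
    calc g * SemidirectProduct.inl b = (g * (SemidirectProduct.inl b) * g⁻¹ *
          (SemidirectProduct.inl b)⁻¹) * (SemidirectProduct.inl b * g) := by group
      _ = _ := by rw [h4, one_mul]
  apply FaithfulSMul.eq_of_smul_eq_smul (α := X)
  intro x
  rw [one_smul]
  by_contra hne
  have h1 := congrFun (congrArg SemidirectProduct.left (hcomm (Pi.mulSingle x u))) (g.right • x)
  rw [mon_mul_left, mon_mul_left, SemidirectProduct.left_inl, SemidirectProduct.right_inl,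
    inv_smul_smul, inv_one, one_smul, Pi.mulSingle_eq_same, Pi.mulSingle_eq_of_ne hne,
    one_mul] at h1
  exact hu (mul_left_cancel (h1.trans (mul_one _).symm))

/-- the `p`-length of the affine monomial group -/
theorem aff_len (hF : ∃ u : Fˣ, u ≠ 1) [Nonempty X] :
    (¬ RLp p 0 (⊥ : Subgroup (Aff F T X)) ⊤) ∧
    ∀ n, ¬ RLp p n (⊥ : Subgroup T) ⊤ → ¬ RLp p (n + 1) (⊥ : Subgroup (Aff F T X)) ⊤ := by
  classical
  have hker : ∀ v : Aff F T X, v.right = 1 → v = SemidirectProduct.inl v.left := by
    intro v hv
    apply SemidirectProduct.ext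
    · rfl
    · exact hv
  have h := step1 (p := p) (SemidirectProduct.rightHom : Aff F T X →* Mon F T X)
    SemidirectProduct.rightHom_surjective (by
      intro v hv
      rw [hker v hv, ← map_pow]
      have : v.left ^ p = 1 := by
        apply Multiplicative.toAdd.injective
        rw [toAdd_pow, toAdd_one]
        funext x
        rw [Pi.smul_apply, nsmul_eq_mul, CharP.cast_eq_zero, zero_mul]
        rfl
      rw [this, map_one]) (by
      obtain ⟨x⟩ := ‹Nonempty X›
      refine ⟨SemidirectProduct.inl (Multiplicative.ofAdd (Pi.single x 1)), rfl, ?_⟩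
      intro h
      have h1 := congrArg (fun g : Aff F T X => g.left.toAdd x) h
      simp only [SemidirectProduct.left_inl, toAdd_ofAdd, Pi.single_eq_same] at h1
      exact one_ne_zero h1) (by
      intro g hg
      show g.right = 1
      apply monLin_faithful
      intro v
      have h1 := hg (SemidirectProduct.inl (Multiplicative.ofAdd v)) rfl
      have h2 := congrArg (fun g : Aff F T X => g.left.toAdd) h1
      have h3 : g.left.toAdd + monLin F T X g.right v = v + monLin F T X 1 g.left.toAdd := h2
      rw [map_one] at h3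
      have h4 : (1 : Module.End F (X → F)) g.left.toAdd = g.left.toAdd := rfl
      rw [h4, add_comm v] at h3
      exact add_left_cancel h3) (mon_opp hF)
  refine ⟨h.1, fun n hn => h.2 n ?_⟩
  intro h1
  apply hn
  have h2 := h1.map (SemidirectProduct.rightHom : Mon F T X →* T)
  rwa [Subgroup.map_bot, Subgroup.map_top_of_surjective _
    SemidirectProduct.rightHom_surjective] at h2

omit [Finite F] hp [CharP F p] [FaithfulSMul T X] in
/-- the affine monomial group is solvable -/
theorem aff_sol (hT : Group.IsSolvable T) : Group.IsSolvable (Aff F T X) := by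
  have h1 : Group.IsSolvable (Mon F T X) := by
    refine sol_ext (SemidirectProduct.rightHom : Mon F T X →* T) ?_ ?_
    · have h2 : (SemidirectProduct.rightHom : Mon F T X →* T).ker =
          (SemidirectProduct.inl : (X → Fˣ) →* Mon F T X).range :=
        SemidirectProduct.range_inl_eq_ker_rightHom.symm
      rw [h2]
      have h3 : Group.IsSolvable (X → Fˣ) := Group.isSolvable_of_comm mul_comm
      exact Group.isSolvable_of_surjective (MonoidHom.rangeRestrict_surjective _)
    · infer_instance
  refine sol_ext (SemidirectProduct.rightHom : Aff F T X →* Mon F T X) ?_ ?_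
  · have h2 : (SemidirectProduct.rightHom : Aff F T X →* Mon F T X).ker =
        (SemidirectProduct.inl : Multiplicative (X → F) →* Aff F T X).range :=
      SemidirectProduct.range_inl_eq_ker_rightHom.symm
    rw [h2]
    have h3 : Group.IsSolvable (Multiplicative (X → F)) := Group.isSolvable_of_comm mul_comm
    exact Group.isSolvable_of_surjective (MonoidHom.rangeRestrict_surjective _)
  · infer_instance

end len

/-- the sharp lower bound -/
theorem clog_le_mMax (p : ℕ) [hp : Fact p.Prime] (F : Type) [Field F] [Finite F] [CharP F p]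
    (hF : 3 ≤ Nat.card F) (n : ℕ) (hn : 1 ≤ n) : Nat.clog (cc p) n ≤ mMax p n F := by
  classical
  rcases Nat.lt_or_ge 1 n with h1 | h1
  swap
  · have : n = 1 := by omega
    rw [this, Nat.clog_one_right]
    exact Nat.zero_le _
  have hFin : Fintype F := Fintype.ofFinite F
  have hcP : (cc p).Prime := by
    unfold cc
    split_ifs with h
    · exact Nat.prime_three
    · exact hp.out
  haveI : Fact (cc p).Prime := ⟨hcP⟩
  have hc3 : 3 ≤ cc p := by
    unfold cc
    split_ifs with h
    · exact le_rfl
    · have := hp.out.two_le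
      omega
  obtain ⟨k, hk⟩ : ∃ k, Nat.clog (cc p) n = k + 1 :=
    Nat.exists_eq_succ_of_ne_zero (Nat.clog_pos hcP.one_lt h1).ne'
  have hkn : cc p ^ k + 1 ≤ n := by
    have h2 : ¬ n ≤ cc p ^ k := by
      intro h3
      have := (Nat.clog_le_iff_le_pow hcP.one_lt).2 h3
      omega
    omega
  obtain ⟨T, _, _, X, _, _, _, hX, hsol, -, hlen⟩ := low_aux (c := cc p) hc3 p rfl k
  have hne : Nonempty X := by
    rw [← Finite.card_pos_iff, hX]
    exact pow_pos hcP.pos k
  have hFX : Fintype X := Fintype.ofFinite X
  have hu : ∃ u : Fˣ, u ≠ 1 := by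
    have h2 : Nat.card Fˣ = Nat.card F - 1 := Nat.card_units F
    have h3 : 1 < Nat.card Fˣ := by omega
    have : Nontrivial Fˣ := Finite.one_lt_card_iff_nontrivial.1 h3
    exact exists_ne 1
  obtain ⟨r, hr⟩ : ∃ r, n = cc p ^ k + 1 + r := ⟨n - (cc p ^ k + 1), by omega⟩
  have hrank : Module.finrank F (((X → F) × F) × (Fin r → F)) = n := by
    rw [Module.finrank_prod, Module.finrank_prod, Module.finrank_fintype_fun_eq_card,
      Module.finrank_self, Module.finrank_fintype_fun_eq_card, Fintype.card_fin,
      ← Nat.card_eq_fintype_card, hX, hr]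
  let b : Module.Basis (Fin n) F (((X → F) × F) × (Fin r → F)) :=
    Module.finBasisOfFinrankEq F _ hrank
  let ψ : Aff F T X →* GL (Fin n) F :=
    ((Matrix.GeneralLinearGroup.toLin' b).symm.toMonoidHom).comp
      (MonoidHom.toHomUnits (affLin F T X (Fin r)))
  have hψ : Function.Injective ψ := by
    refine (MulEquiv.injective (Matrix.GeneralLinearGroup.toLin' b).symm).comp ?_
    intro g h hgh
    apply affLin_injective F T X (Fin r)
    exact congrArg Units.val hgh
  have hfin : Finite (Aff F T X) := Finite.of_injective ψ hψ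
  have hsolA : Group.IsSolvable (Aff F T X) := aff_sol hsol
  have hHs : Group.IsSolvable ψ.range :=
    Group.isSolvable_of_surjective (f := ψ.rangeRestrict) ψ.rangeRestrict_surjective
  have hA := aff_len (p := p) (F := F) (T := T) (X := X) hu
  have hAn : ¬ RLp p k (⊥ : Subgroup (Aff F T X)) ⊤ := by
    cases k with
    | zero => exact hA.1
    | succ k => exact hA.2 k (hlen k (Nat.lt_succ_self k))
  have hHn : ¬ RLp p k (⊥ : Subgroup ψ.range) ⊤ := by
    intro h
    apply hAn
    have h1 := h.comap ψ.rangeRestrict
    rwa [Subgroup.comap_top, MonoidHom.comap_bot, MonoidHom.ker_rangeRestrict,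
      (MonoidHom.ker_eq_bot_iff ψ).2 hψ] at h1
  have h1 := lt_pLength (pSolvable_of_solvable (p := p) (G := ψ.range)) hHn
  have h2 : pLength p ψ.range ≤ mMax p n F :=
    (isGreatest_mMax (p := p) (F := F) n).2 ⟨ψ.range, pSolvable_of_solvable, rfl⟩
  omega

end Pool.Agent.KS6_8.PL
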