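import Pool.Agent.KS6_8.PL.Irr
import Pool.Graph.R_seed8.Results.MP_d3ab46_al.Limit

/-!
# The upper bound for the `p`-length of `p`-solvable linear groups, with a bounded error
-/

set_option autoImplicit false

namespace Pool.Agent.KS6_8.PL

open Pool.Agent.Helper407.PL Pool.Agent.R683.Q Pool.Agent.R683.Crit Pool.Agent.R683.Rec
  Pool.Agent.R683.Ord Pool.Agent.R683.LenP Pool.Agent.R683.LinI Pool.Agent.R683.Prim
  Pool.Agent.R683.Low Pool.Agent.R683.Upper Pool.Agent.Results.MP_d3ab46_al.Limit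

/-- the constant of the upper bound -/
def KC (c : ℕ) : ℕ := 6 + Nat.clog 2 (Nat.clog 2 c)

theorem bk_KC {c : ℕ} (hc : 2 ≤ c) : Bk c (KC c) := by
  intro u hu
  obtain ⟨t, ht⟩ : ∃ t, t = Nat.log c u := ⟨_, rfl⟩
  obtain ⟨d, hd⟩ : ∃ d, d = Nat.clog 2 (Nat.clog 2 c) := ⟨_, rfl⟩
  refine ⟨t + 3 + d, ?_, ?_⟩
  · have h1 : u < c ^ (t + 1) := by rw [ht]; exact Nat.lt_pow_succ_log_self (by omega) u
    have hu0 : (0 : ℝ) < u := by exact_mod_cast hu
    have h2 : Real.logb 2 u < (t + 1 : ℝ) * Real.logb 2 c := by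
      have h3 : (u : ℝ) < (c : ℝ) ^ (t + 1) := by exact_mod_cast h1
      have h4 := Real.logb_lt_logb (b := 2) (by norm_num) hu0 h3
      rw [Real.logb_pow] at h4
      push_cast at h4
      exact h4
    have h3 : Real.logb 2 c ≤ (2 : ℝ) ^ d := by
      have h4 : (c : ℝ) ≤ (2 : ℝ) ^ (Nat.clog 2 c) := by
        exact_mod_cast Nat.le_pow_clog (by norm_num) c
      have hc0 : (0 : ℝ) < c := by
        have : 0 < c := by omega
        exact_mod_cast this
      have h5 := Real.logb_le_logb_of_le (b := 2) (by norm_num) hc0 h4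
      rw [Real.logb_pow, Real.logb_self_eq_one (by norm_num), mul_one] at h5
      refine h5.trans ?_
      have h6 : Nat.clog 2 c ≤ 2 ^ d := by rw [hd]; exact Nat.le_pow_clog (by norm_num) _
      exact_mod_cast h6
    have h4 : ((t : ℝ) + 1) ≤ (2 : ℝ) ^ t := by
      have : t + 1 ≤ 2 ^ t := Nat.lt_two_pow_self
      exact_mod_cast this
    have h5 : (2 : ℝ) ^ (t + 3 + d) ≤ (289 / 144 : ℝ) ^ (t + 3 + d) :=
      pow_le_pow_left₀ (by norm_num) (by norm_num) _
    refine lt_of_lt_of_le ?_ h5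
    have h6 : (2 : ℝ) ^ (t + 3 + d) = 8 * ((2 : ℝ) ^ t * (2 : ℝ) ^ d) := by
      rw [pow_add, pow_add]; ring
    rw [h6]
    have h7 : (t + 1 : ℝ) * Real.logb 2 c ≤ (2 : ℝ) ^ t * (2 : ℝ) ^ d :=
      mul_le_mul h4 h3 (Real.logb_nonneg (by norm_num) (by
        have : 1 ≤ c := by omega
        exact_mod_cast this)) (by positivity)
    linarith
  · unfold KC
    rw [← hd, ← ht]
    omega

/-- the upper bound for one solvable group -/
theorem upper_sol' (p : ℕ) [hp : Fact p.Prime] {H : Type} [Group H] [Finite H]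
    [Group.IsSolvable H] (V : Type)
    [AddCommGroup V] [Finite V] (φ : H →* MulAut (Multiplicative V)) (hφ : Function.Injective φ)
    (hV : ∃ a, Nat.card V = p ^ a) :
    RLp p (KC (cc p) + 1 + Nat.log (cc p) (Nat.log 2 (Nat.card V))) (⊥ : Subgroup H) ⊤ := by
  by_cases hp2 : p = 2
  · subst hp2
    have hcc : cc 2 = 3 := rfl
    rw [hcc]
    obtain ⟨D, hDn, hDp, hDL⟩ := linear_len' (len_q 2) (c := 3) (by norm_num)
      (fun Q _ _ _ M hM hcore => prim_q M hM hcore)
      (fun B _ _ h => RLq_of_RLp (ab_p 2 B h))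
      (fun G _ _ _ n h => RLq_of_RLp (sm_p 2 G n h)) V φ hφ hV (KC 3) (bk_KC (by norm_num))
    have h1 : RLq 2 0 (⊥ : Subgroup H) D := RLq.of_PF 0 hDp bot_le (Inv.bot _)
    have h2 := h1.trans hDL (Inv.bot _)
    exact (RLp_of_RLq h2).mono_n (by omega)
  · have hcc : cc p = p := by unfold cc; rw [if_neg hp2]
    rw [hcc]
    obtain ⟨D, hDn, hDp, hDL⟩ := linear_len' (len_p p) (c := p) hp.out.two_le
      (fun Q _ _ _ M hM hcore => prim_p M hM hcore)
      (fun B _ _ h => (ab_p p B h).mono_n (by norm_num))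
      (fun G _ _ _ n h => (sm_p p G n h).mono_n (by omega)) V φ hφ hV (KC p)
      (bk_KC hp.out.two_le)
    have h1 : RLp p 1 (⊥ : Subgroup H) D := RLp.of_PF hDp bot_le (Inv.bot _)
    have h2 := h1.trans hDL (Inv.bot _)
    exact h2.mono_n (by omega)

/-- the upper bound for `p`-solvable groups -/
theorem upper' (p : ℕ) [hp : Fact p.Prime] {H : Type} [Group H] [Finite H]
    (hps : ∃ N, RLp p N (⊥ : Subgroup H) ⊤) (V : Type)
    [AddCommGroup V] [Finite V] (φ : H →* MulAut (Multiplicative V)) (hφ : Function.Injective φ)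
    (hV : ∃ a, Nat.card V = p ^ a) :
    RLp p (KC (cc p) + 1 + Nat.log (cc p) (Nat.log 2 (Nat.card V))) (⊥ : Subgroup H) ⊤ := by
  by_contra hnot
  obtain ⟨H', hH's, hH'n⟩ := exists_solvable_subgroup (p := p) hps _ hnot
  exact hH'n (upper_sol' p V (φ.comp H'.subtype)
    (hφ.comp H'.subtype_injective) hV)

/-- the upper bound for `m_n(q)` -/
theorem mMax_le' {p : ℕ} [hp : Fact p.Prime] {F : Type} [Field F] [Finite F] [CharP F p] (n : ℕ) :
    mMax p n F ≤ KC (cc p) + 1 + Nat.log (cc p) (Nat.log 2 (Nat.card F ^ n)) := by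
  classical
  have : Fintype F := Fintype.ofFinite F
  have hfinGL : Finite (GL (Fin n) F) := by infer_instance
  obtain ⟨H, hH, hl⟩ := (isGreatest_mMax (p := p) (F := F) n).1
  rw [← hl]
  obtain ⟨a, ha0, ha⟩ := card_field (p := p) (F := F)
  have h1 := upper' p (rlp_of_pSolvable hH) (Fin n → F)
    ((actHom n F).comp H.subtype) ((actHom_injective n).comp H.subtype_injective)
    ⟨a * n, by rw [card_space, ha, ← pow_mul]⟩
  rw [card_space] at h1
  exact pLength_le' h1

/-- both bounds: the error is bounded -/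
theorem mMax_log (p : ℕ) [hp : Fact p.Prime] (F : Type) [Field F] [Finite F] [CharP F p] (n : ℕ)
    (hn : 1 ≤ n) :
    Real.logb (max p 3 : ℕ) n - 1 < mMax p n F ∧
    (mMax p n F : ℝ) ≤ Real.logb (max p 3 : ℕ) n +
      (7 + Nat.clog 2 (Nat.clog 2 (max p 3)) +
        Real.logb (max p 3 : ℕ) (Real.logb 2 (Nat.card F))) := by
  obtain ⟨c, hc⟩ : ∃ c, c = cc p := ⟨_, rfl⟩
  have hc3 : 3 ≤ c := by rw [hc]; exact cc_ge p hp.out
  have hc3' : (3 : ℝ) ≤ c := by exact_mod_cast hc3
  rw [← cc_eq p hp.out, ← hc]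
  have hn0' : (0 : ℝ) < n := by
    have : 0 < n := by omega
    exact_mod_cast this
  constructor
  · have h1 := le_mMax (p := p) (F := F) low n hn
    rw [← hc] at h1
    have h2 : (Nat.log c n : ℝ) ≤ mMax p n F := by exact_mod_cast h1
    have h4 : n < c ^ (Nat.log c n + 1) := Nat.lt_pow_succ_log_self (by omega) n
    have h5 : (n : ℝ) < (c : ℝ) ^ (Nat.log c n + 1) := by exact_mod_cast h4
    have h6 := Real.logb_lt_logb (b := c) (by linarith) hn0' h5
    rw [Real.logb_pow, Real.logb_self_eq_one (by linarith)] at h6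
    push_cast at h6
    linarith
  · have hq2 : 2 ≤ Nat.card F := Finite.one_lt_card
    have hβ1 : 1 ≤ Real.logb 2 (Nat.card F) := by
      have hq : (2 : ℝ) ≤ Nat.card F := by exact_mod_cast hq2
      calc (1 : ℝ) = Real.logb 2 2 := (Real.logb_self_eq_one (by norm_num)).symm
        _ ≤ _ := Real.logb_le_logb_of_le (by norm_num) (by norm_num) hq
    have hNl : (Nat.log 2 (Nat.card F ^ n) : ℝ) ≤ n * Real.logb 2 (Nat.card F) := by
      have h1 := Real.natLog_le_logb (Nat.card F ^ n) 2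
      push_cast at h1
      rw [Real.logb_pow] at h1
      exact h1
    have hNl1 : (1 : ℝ) ≤ Nat.log 2 (Nat.card F ^ n) := by
      have h1 : 0 < Nat.log 2 (Nat.card F ^ n) := by
        apply Nat.log_pos (by norm_num)
        exact hq2.trans (Nat.le_self_pow (by omega) _)
      exact_mod_cast h1
    have h1 := mMax_le' (p := p) (F := F) n
    rw [← hc] at h1
    have h2 : (mMax p n F : ℝ) ≤ (KC c : ℝ) + 1 +
        Nat.log c (Nat.log 2 (Nat.card F ^ n)) := by exact_mod_cast h1
    have hK : (KC c : ℝ) = 6 + Nat.clog 2 (Nat.clog 2 c) := by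
      unfold KC; push_cast; ring
    have h4 : (Nat.log c (Nat.log 2 (Nat.card F ^ n)) : ℝ) ≤
        Real.logb c (n * Real.logb 2 (Nat.card F)) := by
      refine (Real.natLog_le_logb _ _).trans ?_
      exact Real.logb_le_logb_of_le (by linarith) (by linarith) hNl
    rw [Real.logb_mul hn0'.ne' (by linarith)] at h4
    rw [hK] at h2
    linarith

end Pool.Agent.KS6_8.PL
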